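import Pool.Agent.Helper95.DG.Main

/-!
MP_381749_lc. Suppose that the permanent of every `n x n` matrix with off-diagonal entries in
`{0, 1}` (off-diagonal part `Z`) and diagonal entries `w_a` in `{0, ..., d}` is the sum of the
determinants of `r` matrices `F_i(Z) + sum_a w_a B_(i,a)(Z)` over a field of characteristic zero,
where `F_i` and `B_(i,a)` are arbitrary functions of `Z`, all ranks of the `B_(i,a)(Z)` are at most
`d`, and every one of these matrices has size at most `μ n` or all ranks at most `μ`. Then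
`2 r >= exp (c n / (μ ^ 2 (1 + log μ) ^ 3))`, with one constant `c > 0`.
-/

namespace Pool.Agent.Helper95.Kept.DiagonalVariables

theorem result : ∃ c : ℝ, 0 < c ∧
    ∀ (K : Type) [Field K] [CharZero K] (n r d : ℕ) (μ : ℝ), 1 ≤ d → 1 ≤ μ →
    ∀ (s : Fin r → ℕ)
      (F : ∀ i, Matrix (Fin n) (Fin n) ℕ → Matrix (Fin (s i)) (Fin (s i)) K)
      (B : ∀ i, Matrix (Fin n) (Fin n) ℕ → Fin n → Matrix (Fin (s i)) (Fin (s i)) K),
    (∀ i Z x, (B i Z x).rank ≤ d) →
    (∀ i, (s i : ℝ) ≤ μ * n ∨ ∀ Z x, ((B i Z x).rank : ℝ) ≤ μ) →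
    (∀ Z : Matrix (Fin n) (Fin n) ℕ, (∀ x y, Z x y ≤ 1) → (∀ x, Z x x = 0) →
      ∀ w : Fin n → ℕ, (∀ x, w x ≤ d) → ((Z + Matrix.diagonal w).permanent : K) =
        ∑ i, (F i Z + ∑ x, (w x : K) • B i Z x).det) →
    Real.exp (c * n / (μ ^ 2 * (1 + Real.log μ) ^ 3)) ≤ 2 * r :=
  Pool.DG.final

end Pool.Agent.Helper95.Kept.DiagonalVariables
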